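import Pool.Agent.H35.CX.Stm
import Pool.Agent.H35.FC.Base

/-!
# Abstract contexts: basic lemmas and the mirror image
-/

set_option autoImplicit false

namespace Pool.Agent.H35.CX

open Pool.Agent.H35.FC (IsCode Facts Tiles star_nil star_append star_of_mem split cut)

variable {α : Type} {C : Set (List α)} {A B : List α → Set (List α)}
  {N : List α → List α → Set (List α)}

theorem rc_of_A (h : Ctx C A B N) {g v : List α} (hv : v ∈ A g) : RC A (g ++ v) :=
  (h.rcA g v).2 ⟨v, hv, [], star_nil, by simp⟩

theorem lc_of_B (h : Ctx C A B N) {f v : List α} (hv : v ∈ B f) : LC B (v ++ f) :=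
  (h.lcB f v).2 ⟨[], star_nil, v, hv, by simp⟩

theorem rc_star (h : Ctx C A B N) {g c : List α} (hg : RC A g) (hc : c ∈ FC.Star C) :
    RC A (g ++ c) :=
  (h.rcA g c).2 ⟨[], hg, c, hc, by simp⟩

theorem lc_star (h : Ctx C A B N) {f c : List α} (hc : c ∈ FC.Star C) (hf : LC B f) :
    LC B (c ++ f) :=
  (h.lcB f c).2 ⟨c, hc, [], hf, by simp⟩

theorem fac (h : Ctx C A B N) {f w : List α} (hw : LC B (w ++ f)) :
    ∃ c ∈ FC.Star C, ∃ b ∈ B f, c ++ b = w := (h.lcB f w).1 hw

theorem facA (h : Ctx C A B N) {g w : List α} (hw : RC A (g ++ w)) :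
    ∃ s ∈ A g, ∃ c ∈ FC.Star C, s ++ c = w := (h.rcA g w).1 hw

theorem exists_rc (h : Ctx C A B N) : ∃ g, RC A g := by
  obtain ⟨v, hv⟩ := h.neA []
  exact ⟨[] ++ v, rc_of_A h hv⟩

theorem exists_lc (h : Ctx C A B N) : ∃ f, LC B f := by
  obtain ⟨v, hv⟩ := h.neB []
  exact ⟨v ++ [], lc_of_B h hv⟩

/-- A factorization excludes that the word is covered. -/
theorem not_N (h : Ctx C A B N) {g f s c b : List α} (hs : s ∈ A g) (hc : c ∈ FC.Star C)
    (hb : b ∈ B f) : s ++ (c ++ b) ∉ N g f := by
  intro hN
  have h1 := (h.tiles g f (s ++ (c ++ b))).1 hN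
  have h2 : (s, c, b) ∈ Facts (A g) (FC.Star C) (B f) (s ++ (c ++ b)) := ⟨hs, hc, hb, rfl⟩
  rw [h1] at h2
  exact h2

/-- Factorizations are unique. -/
theorem uniq (h : Ctx C A B N) {g f s c b s' c' b' : List α} (hs : s ∈ A g)
    (hc : c ∈ FC.Star C) (hb : b ∈ B f) (hs' : s' ∈ A g) (hc' : c' ∈ FC.Star C) (hb' : b' ∈ B f)
    (e : s ++ (c ++ b) = s' ++ (c' ++ b')) : s = s' ∧ c = c' ∧ b = b' := by
  have h1 := (h.tiles g f (s ++ (c ++ b))).2 (not_N h hs hc hb)
  have h2 := h1.unique (y₁ := (s, c, b)) (y₂ := (s', c', b')) ⟨hs, hc, hb, rfl⟩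
    ⟨hs', hc', hb', e.symm⟩
  simpa only [Prod.mk.injEq] using h2

/-- A codeword over `u1 u2` excludes a cut inside. -/
theorem ncut (h : Ctx C A B N) {g f u1 u2 : List α} (hu : u1 ++ u2 ∈ N g f)
    (hr : RC A (g ++ u1)) (hl : LC B (u2 ++ f)) : False := by
  obtain ⟨s, hs, c, hc, rfl⟩ := facA h hr
  obtain ⟨c', hc', b, hb, rfl⟩ := fac h hl
  have h1 := not_N h hs (star_append hc hc') hb
  apply h1
  simpa only [List.append_assoc] using hu

/-- A codeword over the end of the left context excludes a cut inside its completion. -/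
theorem acut (h : Ctx C A B N) {g v1 v2 t f : List α} (hv : v1 ++ v2 ∈ A g)
    (h2 : v2 ≠ []) (hr : RC A (g ++ v1)) (hl : LC B (v2 ++ t ++ f))
    (hl' : LC B (t ++ f)) : False := by
  obtain ⟨s, hs, c, hc, rfl⟩ := facA h hr
  obtain ⟨c1, hc1, b1, hb1, e1⟩ := fac h hl
  obtain ⟨c2, hc2, b2, hb2, rfl⟩ := fac h hl'
  have h3 := (uniq h hs (star_append hc hc1) hb1 hv hc2 hb2 (by
    have : s ++ (c ++ c1 ++ b1) = s ++ (c ++ (c1 ++ b1)) := by simp only [List.append_assoc]
    rw [this, e1]
    simp only [List.append_assoc])).1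
  have h4 := congrArg List.length h3
  have h5 := List.length_pos_iff.2 h2
  simp only [List.length_append] at h4
  omega

/-- The mirror image of `acut`. -/
theorem bcut (h : Ctx C A B N) {f v1 v2 t g : List α} (hv : v2 ++ v1 ∈ B f)
    (h2 : v2 ≠ []) (hl : LC B (v1 ++ f)) (hr : RC A (g ++ (t ++ v2)))
    (hr' : RC A (g ++ t)) : False := by
  obtain ⟨c, hc, b, hb, rfl⟩ := fac h hl
  obtain ⟨s1, hs1, c1, hc1, e1⟩ := facA h hr
  obtain ⟨s2, hs2, c2, hc2, rfl⟩ := facA h hr'
  have h3 := (uniq h hs1 (star_append hc1 hc) hb hs2 hc2 hv (by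
    have : s1 ++ (c1 ++ c ++ b) = (s1 ++ c1) ++ (c ++ b) := by simp only [List.append_assoc]
    rw [this, e1]
    simp only [List.append_assoc])).2.2
  have h4 := congrArg List.length h3
  have h5 := List.length_pos_iff.2 h2
  simp only [List.length_append] at h4
  omega

theorem star_A (h : Ctx C A B N) {g v : List α} (hg : RC A g) (hv : v ∈ FC.Star C)
    (hj : v ∈ A g) : v = [] := by
  obtain ⟨f, hf⟩ := exists_lc h
  have h1 := (uniq h (f := f) hg hv hf hj star_nil hf (by simp)).1
  exact h1.symm

theorem star_B (h : Ctx C A B N) {f v : List α} (hf : LC B f) (hv : v ∈ FC.Star C)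
    (hj : v ∈ B f) : v = [] := by
  obtain ⟨g, hg⟩ := exists_rc h
  have h1 := (uniq h (g := g) hg hv hf hg star_nil hj (by simp)).2.2
  exact h1.symm

theorem A_snoc (h : Ctx C A B N) {x : α} {g v : List α} (hv : v ∈ A (g ++ [x])) :
    x :: v ∈ A g ∨ (RC A g ∧ x :: v ∈ C) := (h.snA g x v).1 hv

theorem B_cons (h : Ctx C A B N) {x : α} {f v : List α} (hv : v ∈ B (x :: f)) :
    v ++ [x] ∈ B f ∨ (LC B f ∧ v ++ [x] ∈ C) := (h.snB f x v).1 hv

/-- the completions of `g` are ends of codewords -/
theorem endA (h : Ctx C A B N) {x : α} {g v : List α} (hv : v ∈ A (g ++ [x])) :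
    ∃ p, p ++ (x :: v) ∈ C := by
  rcases A_snoc h hv with h1 | ⟨-, h1⟩
  · obtain ⟨p, -, hp, -⟩ := h.srA g _ h1
    exact ⟨p, hp⟩
  · exact ⟨[], by simpa using h1⟩

theorem endB (h : Ctx C A B N) {x : α} {f v : List α} (hv : v ∈ B (x :: f)) :
    ∃ s, (v ++ [x]) ++ s ∈ C := by
  rcases B_cons h hv with h1 | ⟨-, h1⟩
  · obtain ⟨s, -, hs, -⟩ := h.srB f _ h1
    exact ⟨s, hs⟩
  · exact ⟨[], by simpa using h1⟩

/-- The completions after a longer context. -/
theorem mem_A_append (h : Ctx C A B N) {g z v : List α} :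
    v ∈ A (g ++ z) ↔ z ++ v ∈ A g ∨
      ∃ z1 z2, z = z1 ++ z2 ∧ z2 ≠ [] ∧ RC A (g ++ z1) ∧ z2 ++ v ∈ C := by
  induction z using List.reverseRecOn generalizing v with
  | nil =>
    simp only [List.append_nil, List.nil_append]
    constructor
    · exact Or.inl
    · rintro (h1 | ⟨z1, z2, e, h2, -, -⟩)
      · exact h1
      · exact absurd (List.append_eq_nil_iff.1 e.symm).2 h2
  | append_singleton z x ih =>
    rw [← List.append_assoc, h.snA, ih]
    constructor
    · rintro ((h1 | ⟨z1, z2, e, h2, h3, h4⟩) | ⟨h1, h2⟩)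
      · left
        simpa using h1
      · right
        exact ⟨z1, z2 ++ [x], by rw [e]; simp, by simp, h3, by simpa using h4⟩
      · right
        exact ⟨z, [x], rfl, by simp, h1, by simpa using h2⟩
    · rintro (h1 | ⟨z1, z2, e, h2, h3, h4⟩)
      · left
        left
        simpa using h1
      · rcases List.eq_nil_or_concat z2 with h5 | ⟨z3, x', h5⟩
        · exact absurd h5 h2
        · rw [List.concat_eq_append] at h5
          subst h5
          rw [← List.append_assoc] at e
          obtain ⟨e1, e2⟩ := List.append_inj' e rfl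
          have e3 : x = x' := by simpa using e2
          subst e3
          rcases eq_or_ne z3 [] with h6 | h6
          · subst h6
            right
            refine ⟨by rw [e1, List.append_nil]; exact h3, by simpa using h4⟩
          · left
            right
            exact ⟨z1, z3, e1, h6, h3, by simpa using h4⟩

/-! ### The mirror image -/

theorem mem_rev (C : Set (List α)) (w : List α) :
    w ∈ List.reverse '' C ↔ w.reverse ∈ C := by
  constructor
  · rintro ⟨v, hv, rfl⟩
    rwa [List.reverse_reverse]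
  · intro h
    exact ⟨w.reverse, h, List.reverse_reverse w⟩

theorem rev_rev (C : Set (List α)) : List.reverse '' (List.reverse '' C) = C := by
  ext w
  rw [mem_rev, mem_rev, List.reverse_reverse]

theorem star_rev_of (C : Set (List α)) (w : List α) (h : w ∈ FC.Star C) :
    w.reverse ∈ FC.Star (List.reverse '' C) := by
  obtain ⟨L, hL, rfl⟩ := h
  refine ⟨(L.map List.reverse).reverse, ?_, ?_⟩
  · intro c hc
    rw [List.mem_reverse, List.mem_map] at hc
    obtain ⟨d, hd, rfl⟩ := hc
    exact ⟨d, hL d hd, rfl⟩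
  · rw [List.reverse_flatten]

theorem mem_star_rev (C : Set (List α)) (w : List α) :
    w ∈ FC.Star (List.reverse '' C) ↔ w.reverse ∈ FC.Star C := by
  constructor
  · intro h
    have := star_rev_of _ _ h
    rwa [rev_rev] at this
  · intro h
    have := star_rev_of _ _ h
    rwa [List.reverse_reverse] at this

theorem code_rev {C : Set (List α)} (h : IsCode C) : IsCode (List.reverse '' C) := by
  refine ⟨?_, ?_⟩
  · rw [mem_rev]
    exact h.1
  · intro L M hL hM he
    have h1 : ∀ N : List (List α), (∀ c ∈ N, c ∈ List.reverse '' C) →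
        ∀ c ∈ (N.map List.reverse).reverse, c ∈ C := by
      intro N hN c hc
      rw [List.mem_reverse, List.mem_map] at hc
      obtain ⟨d, hd, rfl⟩ := hc
      exact (mem_rev C d).1 (hN d hd)
    have h2 : (L.map List.reverse).reverse.flatten = (M.map List.reverse).reverse.flatten := by
      rw [← List.reverse_flatten, ← List.reverse_flatten, he]
    have h3 := h.2 _ _ (h1 L hL) (h1 M hM) h2
    have h4 := List.reverse_injective h3
    exact List.map_injective_iff.2 List.reverse_injective h4

theorem tiles_rev {C S P N : Set (List α)} (h : Tiles C S P N) :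
    Tiles (List.reverse '' C) (List.reverse '' P) (List.reverse '' S) (List.reverse '' N) := by
  intro w
  have key : ∀ t : List α × List α × List α,
      t ∈ Facts (List.reverse '' P) (FC.Star (List.reverse '' C)) (List.reverse '' S) w ↔
      (t.2.2.reverse, t.2.1.reverse, t.1.reverse) ∈ Facts S (FC.Star C) P w.reverse := by
    rintro ⟨x, y, z⟩
    constructor
    · rintro ⟨h1, h2, h3, h4⟩
      simp only at h1 h2 h3 h4
      refine ⟨(mem_rev S z).1 h3, (mem_star_rev C y).1 h2, (mem_rev P x).1 h1, ?_⟩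
      simp only
      rw [← h4, List.reverse_append, List.reverse_append, List.append_assoc]
    · rintro ⟨h1, h2, h3, h4⟩
      simp only at h1 h2 h3 h4
      refine ⟨(mem_rev P x).2 h3, (mem_star_rev C y).2 h2, (mem_rev S z).2 h1, ?_⟩
      simp only
      have h5 := congrArg List.reverse h4
      rw [List.reverse_append, List.reverse_append, List.reverse_reverse, List.reverse_reverse,
        List.reverse_reverse, List.reverse_reverse] at h5
      rw [← h5, List.append_assoc]
  refine ⟨fun hw => ?_, fun hw => ?_⟩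
  · ext t
    simp only [Set.mem_empty_iff_false, iff_false]
    intro ht
    have h1 := (key t).1 ht
    rw [(h w.reverse).1 ((mem_rev N w).1 hw)] at h1
    exact h1
  · obtain ⟨t, ht, hu⟩ := (h w.reverse).2 (fun h' => hw ((mem_rev N w).2 h'))
    refine ⟨(t.2.2.reverse, t.2.1.reverse, t.1.reverse), ?_, ?_⟩
    · show _ ∈ Facts _ _ _ _
      rw [key]
      simpa only [List.reverse_reverse, Prod.mk.eta] using ht
    · intro t' ht'
      have h1 := hu _ ((key t').1 ht')
      rw [← h1]
      simp only [List.reverse_reverse, Prod.mk.eta]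

theorem tiles_rev0 {C S P : Set (List α)} (h : Tiles (List.reverse '' C) S P ∅) :
    Tiles C (List.reverse '' P) (List.reverse '' S) ∅ := by
  have h1 := tiles_rev h
  rwa [rev_rev, Set.image_empty] at h1

/-- The left completions of the mirror image. -/
def revF (B : List α → Set (List α)) (g : List α) : Set (List α) :=
  List.reverse '' (B g.reverse)

theorem mem_revF (B : List α → Set (List α)) (g v : List α) :
    v ∈ revF B g ↔ v.reverse ∈ B g.reverse := mem_rev _ _

theorem rc_rev (B : List α → Set (List α)) (g : List α) : RC (revF B) g ↔ LC B g.reverse := by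
  unfold RC LC
  rw [mem_revF, List.reverse_nil]

theorem lc_rev (A : List α → Set (List α)) (f : List α) : LC (revF A) f ↔ RC A f.reverse := by
  unfold RC LC
  rw [mem_revF, List.reverse_nil]

theorem Ctx.rev (h : Ctx C A B N) :
    Ctx (List.reverse '' C) (revF B) (revF A)
      (fun g f => List.reverse '' (N f.reverse g.reverse)) := by
  refine ⟨h.fin.image _, code_rev h.code, h.cne.image _, fun g => (h.finB _).image _,
    fun f => (h.finA _).image _, fun g f => (h.finN _ _).image _, fun g => (h.neB _).image _,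
    fun f => (h.neA _).image _, fun g f => tiles_rev (h.tiles _ _), ?_, ?_, ?_, ?_, ?_, ?_⟩
  · intro g z
    rw [rc_rev, List.reverse_append, h.lcB]
    constructor
    · rintro ⟨c, hc, b, hb, e⟩
      refine ⟨b.reverse, (mem_revF B g _).2 (by rwa [List.reverse_reverse]), c.reverse,
        (mem_star_rev C _).2 (by rwa [List.reverse_reverse]), ?_⟩
      rw [← List.reverse_append, e, List.reverse_reverse]
    · rintro ⟨s, hs, c, hc, e⟩
      refine ⟨c.reverse, (mem_star_rev C _).1 hc, s.reverse, (mem_revF B g _).1 hs, ?_⟩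
      rw [← List.reverse_append, e]
  · intro f z
    rw [lc_rev, List.reverse_append, h.rcA]
    constructor
    · rintro ⟨s, hs, c, hc, e⟩
      refine ⟨c.reverse, (mem_star_rev C _).2 (by rwa [List.reverse_reverse]), s.reverse,
        (mem_revF A f _).2 (by rwa [List.reverse_reverse]), ?_⟩
      rw [← List.reverse_append, e, List.reverse_reverse]
    · rintro ⟨c, hc, b, hb, e⟩
      refine ⟨b.reverse, (mem_revF A f _).1 hb, c.reverse, (mem_star_rev C _).1 hc, ?_⟩
      rw [← List.reverse_append, e]
  · intro g x v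
    rw [mem_revF, mem_revF, rc_rev, mem_rev, List.reverse_append, List.reverse_singleton,
      List.singleton_append, h.snB, List.reverse_cons]
  · intro f x v
    rw [mem_revF, mem_revF, lc_rev, mem_rev, List.reverse_cons, h.snA, List.reverse_append,
      List.reverse_singleton, List.singleton_append]
  · intro g v hv
    obtain ⟨s, hs, hsv, hst⟩ := h.srB _ _ ((mem_revF B g v).1 hv)
    refine ⟨s.reverse, by simpa using hs, ?_, fun h1 => ?_⟩
    · rw [mem_rev, List.reverse_append, List.reverse_reverse]
      exact hsv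
    · rw [rc_rev]
      rw [mem_star_rev, List.reverse_reverse] at h1
      exact hst h1
  · intro f v hv
    obtain ⟨p, hp, hpv, hpt⟩ := h.srA _ _ ((mem_revF A f v).1 hv)
    refine ⟨p.reverse, by simpa using hp, ?_, fun h1 => ?_⟩
    · rw [mem_rev, List.reverse_append, List.reverse_reverse]
      exact hpv
    · rw [lc_rev]
      rw [mem_star_rev, List.reverse_reverse] at h1
      exact hpt h1

end Pool.Agent.H35.CX
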