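import Pool.Agent.H35.CX.Api

/-!
# All completions after `y` are commutatively equal: the sets are equal and the code factorizes
-/

set_option autoImplicit false

namespace Pool.Agent.H35.CX

open Pool.Agent.H35.FC (IsCode Facts Tiles star_nil star_append star_of_mem split cut)

variable {α : Type} {C : Set (List α)} {A B : List α → Set (List α)}
  {N : List α → List α → Set (List α)}

/-- The suffix of a word of `A g C*` after a longer context. -/
theorem shift (h : Ctx C A B N) {g z1 z2 : List α} (hz : RC A (g ++ (z1 ++ z2))) :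
    ∃ s ∈ A (g ++ z1), ∃ c ∈ FC.Star C, s ++ c = z2 := by
  rw [← List.append_assoc] at hz
  exact facA h hz

variable [DecidableEq α]

/-- The words of `A g` with `k` letters `y`. -/
def lev (A : List α → Set (List α)) (y : α) (k : ℕ) (g : List α) : Set (List α) :=
  {v | v ∈ A g ∧ v.count y = k}

/-- Step (3): the sets are equal. -/
theorem sets_eq (h : Ctx C A B N) {y : α} {d : ℕ} (hd : ∀ w ∈ C, w.count y ≤ d) (hd1 : 1 ≤ d)
    (hcard : ∀ g g', (lev A y (d - 1) (g ++ [y])).ncard = (lev A y (d - 1) (g' ++ [y])).ncard)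
    (hex : ∀ g, ∃ v ∈ A (g ++ [y]), v.count y = d - 1) (g g' : List α) :
    A (g ++ [y]) = A (g' ++ [y]) := by
  -- the degree of the first kind
  have hdeg : ∀ g v, v ∈ A (g ++ [y]) → v.count y ≤ d - 1 := by
    intro g v hv
    obtain ⟨p, hp⟩ := endA h hv
    have := hd _ hp
    rw [List.count_append, List.count_cons_self] at this
    omega
  -- a word of degree `d - 1` after `y`
  obtain ⟨v0, hv0, hv0'⟩ : ∃ v : List α, y :: v ∈ C ∧ v.count y = d - 1 := by
    obtain ⟨v, hv, hv'⟩ := hex ([] ++ [y])
    rcases A_snoc h hv with h1 | ⟨-, h1⟩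
    · have := hdeg _ _ h1
      rw [List.count_cons_self] at this
      omega
    · exact ⟨v, h1, hv'⟩
  -- the comparison
  have key : ∀ (g g' x0 : List α), x0 ∈ A (g ++ [y]) → x0 ∉ A (g' ++ [y]) →
      (∀ z : List α, z.length < x0.length → (z ∈ A (g ++ [y]) ↔ z ∈ A (g' ++ [y]))) → False := by
    intro g g' x0 h1 h2 h3
    have hrc : ∀ z : List α, z.length < x0.length →
        (RC A (g ++ [y] ++ z) ↔ RC A (g' ++ [y] ++ z)) := by
      intro z hz
      rw [h.rcA, h.rcA]
      constructor
      · rintro ⟨s, hs, c, hc, rfl⟩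
        refine ⟨s, (h3 s ?_).1 hs, c, hc, rfl⟩
        rw [List.length_append] at hz
        omega
      · rintro ⟨s, hs, c, hc, rfl⟩
        refine ⟨s, (h3 s ?_).2 hs, c, hc, rfl⟩
        rw [List.length_append] at hz
        omega
    have hr0 : RC A (g ++ [y] ++ x0) := rc_of_A h h1
    obtain ⟨f0, hf0⟩ := exists_lc h
    have hr0' : ¬ RC A (g' ++ [y] ++ x0) := by
      intro hcon
      obtain ⟨s, hs, c, hc, e⟩ := facA h hcon
      rcases eq_or_ne c [] with rfl | hcn
      · rw [List.append_nil] at e
        rw [e] at hs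
        exact h2 hs
      · have hlen : s.length < x0.length := by
          rw [← e, List.length_append]
          have := List.length_pos_iff.2 hcn
          omega
        have hs' := (h3 s hlen).2 hs
        have h4 := (uniq h (f := f0) h1 star_nil hf0 hs' hc hf0 (by simp [e])).1
        rw [h4] at hlen
        omega
    -- the words of degree `d - 1` after the longer contexts
    have hA : ∀ (k v : List α), v.count y = d - 1 →
        (v ∈ A (k ++ [y] ++ (x0 ++ [y])) ↔
          ((RC A (k ++ [y] ++ x0) ∧ y :: v ∈ C) ∨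
            ∃ z1 z2, x0 ++ [y] = z1 ++ z2 ∧ z1.length < x0.length ∧
              RC A (k ++ [y] ++ z1) ∧ z2 ++ v ∈ C)) := by
      intro k v hv
      rw [mem_A_append h]
      constructor
      · rintro (h4 | ⟨z1, z2, e, hz, hr, hc⟩)
        · exfalso
          have h5 := hdeg _ _ h4
          rw [List.count_append, List.count_append, List.count_singleton_self] at h5
          omega
        · rcases lt_or_ge z1.length x0.length with h4 | h4
          · exact Or.inr ⟨z1, z2, e, h4, hr, hc⟩
          · left
            have l1 := congrArg List.length e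
            simp only [List.length_append, List.length_cons, List.length_nil] at l1
            have hz' := List.length_pos_iff.2 hz
            obtain ⟨e1, e2⟩ := List.append_inj e (by omega)
            subst e1 e2
            exact ⟨hr, hc⟩
      · rintro (⟨hr, hc⟩ | ⟨z1, z2, e, hz, hr, hc⟩)
        · exact Or.inr ⟨x0, [y], rfl, by simp, hr, hc⟩
        · refine Or.inr ⟨z1, z2, e, ?_, hr, hc⟩
          rintro rfl
          have l1 := congrArg List.length e
          simp only [List.length_append, List.length_cons, List.length_nil] at l1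
          omega
    have hsub : lev A y (d - 1) (g' ++ [y] ++ (x0 ++ [y])) ⊆
        lev A y (d - 1) (g ++ [y] ++ (x0 ++ [y])) := by
      rintro v ⟨hv, hv'⟩
      refine ⟨?_, hv'⟩
      rw [hA g' v hv'] at hv
      rw [hA g v hv']
      rcases hv with ⟨h4, -⟩ | ⟨z1, z2, e, hz, hr, hc⟩
      · exact absurd h4 hr0'
      · exact Or.inr ⟨z1, z2, e, hz, (hrc z1 hz).2 hr, hc⟩
    have hmem : v0 ∈ lev A y (d - 1) (g ++ [y] ++ (x0 ++ [y])) :=
      ⟨(hA g v0 hv0').2 (Or.inl ⟨hr0, hv0⟩), hv0'⟩
    have hnot : v0 ∉ lev A y (d - 1) (g' ++ [y] ++ (x0 ++ [y])) := by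
      rintro ⟨hv, -⟩
      rw [hA g' v0 hv0'] at hv
      rcases hv with ⟨h4, -⟩ | ⟨z1, z2, e, hz, hr, hc⟩
      · exact hr0' h4
      · obtain ⟨s1, hs1, c1, hc1, e1⟩ := facA h hr0
        obtain ⟨s2, hs2, c2, hc2, e2⟩ := facA h ((hrc z1 hz).2 hr)
        have h5 := uniq h (f := f0) hs1 (star_append hc1 (star_of_mem hv0)) hf0 hs2
          (star_append hc2 (star_of_mem hc)) hf0 (by
            have h6 : s1 ++ (c1 ++ y :: v0 ++ []) = (s1 ++ c1) ++ (y :: v0) := by simp
            have h7 : s2 ++ (c2 ++ (z2 ++ v0) ++ []) = (s2 ++ c2) ++ (z2 ++ v0) := by simp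
            rw [h6, h7, e1, e2, ← List.append_assoc, ← e]
            simp)
        obtain ⟨h8, h9, -⟩ := h5
        -- two factorizations of the same word of `C*`
        obtain ⟨L1, hL1, rfl⟩ := hc1
        obtain ⟨L2, hL2, rfl⟩ := hc2
        have h10 := h.code.2 (L1 ++ [y :: v0]) (L2 ++ [z2 ++ v0]) (by
            intro c hc'
            rw [List.mem_append, List.mem_singleton] at hc'
            rcases hc' with hc' | rfl
            · exact hL1 c hc'
            · exact hv0) (by
            intro c hc'
            rw [List.mem_append, List.mem_singleton] at hc'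
            rcases hc' with hc' | rfl
            · exact hL2 c hc'
            · exact hc) (by simpa using h9)
        obtain ⟨h11, h12⟩ := List.append_inj' h10 rfl
        have h13 : y :: v0 = z2 ++ v0 := by simpa using h12
        have h14 := congrArg List.length h13
        have h15 := congrArg List.length e
        simp only [List.length_append, List.length_cons, List.length_nil] at h14 h15
        omega
    have hfin : (lev A y (d - 1) (g ++ [y] ++ (x0 ++ [y]))).Finite :=
      (h.finA _).subset fun v hv => hv.1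
    have h4 := Set.ncard_lt_ncard
      (Set.ssubset_iff_subset_ne.2 ⟨hsub, fun h5 => hnot (h5 ▸ hmem)⟩) hfin
    have h5 := hcard (g ++ [y] ++ x0) (g' ++ [y] ++ x0)
    simp only [List.append_assoc] at h4 h5
    omega
  -- the shortest difference
  classical
  by_contra hne
  have hexx : ∃ n, ∃ x : List α, x.length = n ∧
      ¬ (x ∈ A (g ++ [y]) ↔ x ∈ A (g' ++ [y])) := by
    by_contra hcon
    push Not at hcon
    apply hne
    ext x
    exact hcon x.length x rfl
  obtain ⟨x0, hx0, hx1⟩ := Nat.find_spec hexx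
  have hmin : ∀ z : List α, z.length < x0.length →
      (z ∈ A (g ++ [y]) ↔ z ∈ A (g' ++ [y])) := by
    intro z hz
    rw [hx0] at hz
    by_contra hcon
    exact Nat.find_min hexx hz ⟨z, rfl, hcon⟩
  by_cases h1 : x0 ∈ A (g ++ [y])
  · exact key g g' x0 h1 (fun h2 => hx1 ⟨fun _ => h2, fun _ => h1⟩) hmin
  · have h2 : x0 ∈ A (g' ++ [y]) := by
      by_contra h3
      exact hx1 ⟨fun h' => absurd h' h1, fun h' => absurd h' h3⟩
    exact key g' g x0 h2 h1 (fun z hz => (hmin z hz).symm)

/-- Step (4): the end. -/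
theorem endA_tiles (h : Ctx C A B N) {y : α}
    (heq : ∀ g g' : List α, A (g ++ [y]) = A (g' ++ [y])) :
    ∃ S P : Set (List α), S.Finite ∧ P.Finite ∧ Tiles C S P ∅ := by
  by_cases hN : (N ([] ++ [y]) []).Nonempty
  swap
  · rw [Set.not_nonempty_iff_eq_empty] at hN
    refine ⟨A ([] ++ [y]), B [], h.finA _, h.finB _, ?_⟩
    rw [← hN]
    exact h.tiles _ _
  obtain ⟨u, hu, hmax⟩ := (h.finN ([] ++ [y]) []).exists_maximalFor
    (fun u : List α => u.count y) _ hN
  have hnot : ∀ w, w ++ y :: u ∉ N ([] ++ [y]) [] := by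
    intro w hw
    have h1 : (w ++ y :: u).count y ≤ u.count y := by
      rcases le_total ((w ++ y :: u).count y) (u.count y) with h2 | h2
      · exact h2
      · exact hmax hw h2
    rw [List.count_append, List.count_cons_self] at h1
    omega
  let P' : Set (List α) := {v | v ++ y :: u ∈ B []}
  have hex : ∀ w, ∃ t, t ∈ Facts (A ([] ++ [y])) (FC.Star C) P' w := by
    intro w
    obtain ⟨⟨s, c, b⟩, ⟨h1, h2, h3, h4⟩, -⟩ :=
      (h.tiles ([] ++ [y]) [] (w ++ y :: u)).2 (hnot w)
    simp only at h1 h2 h3 h4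
    have hno : ∀ z, u ≠ z ++ b := by
      intro z e1
      have e2 : s ++ c = w ++ y :: z := by
        have e3 : (s ++ c) ++ b = (w ++ y :: z) ++ b := by
          rw [List.append_assoc, h4, e1]
          simp
        exact List.append_cancel_right e3
      have h5 : RC A ([y] ++ w ++ [y] ++ z) := by
        have h6 : RC A (([] ++ [y]) ++ (s ++ c)) := (h.rcA _ _).2 ⟨s, h1, c, h2, rfl⟩
        rw [e2] at h6
        simpa using h6
      obtain ⟨s', hs', c', hc', e3⟩ := facA h h5
      rw [heq ([y] ++ w) []] at hs'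
      refine not_N h hs' hc' h3 ?_
      have e4 : s' ++ (c' ++ b) = u := by
        rw [← List.append_assoc, e3, e1]
      rw [e4]
      exact hu
    have h4' : (s ++ c) ++ b = w ++ y :: u := by rw [List.append_assoc, h4]
    rcases List.append_eq_append_iff.1 h4' with ⟨z, e1, e2⟩ | ⟨z, e1, e2⟩
    · -- `w = s c z`, `b = z y u`
      refine ⟨⟨s, c, z⟩, h1, h2, ?_, ?_⟩
      · show z ++ y :: u ∈ B []
        rw [← e2]
        exact h3
      · show s ++ (c ++ z) = w
        rw [e1, List.append_assoc]
    · -- `s c = w z`, `y u = z b`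
      rcases z with _ | ⟨a, z⟩
      · refine ⟨⟨s, c, []⟩, h1, h2, ?_, ?_⟩
        · show [] ++ y :: u ∈ B []
          rw [List.nil_append] at e2
          rw [List.nil_append, e2]
          exact h3
        · show s ++ (c ++ []) = w
          rw [List.append_nil, e1, List.append_nil]
      · rw [List.cons_append, List.cons.injEq] at e2
        exact absurd e2.2 (hno z)
  have hlift : ∀ w s c v, (s, c, v) ∈ Facts (A ([] ++ [y])) (FC.Star C) P' w →
      (s, c, v ++ y :: u) ∈ Facts (A ([] ++ [y])) (FC.Star C) (B []) (w ++ y :: u) := by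
    rintro w s c v ⟨h1, h2, h3, h4⟩
    refine ⟨h1, h2, h3, ?_⟩
    simp only at h4 ⊢
    rw [← h4]
    simp
  have hun : ∀ w t t', t ∈ Facts (A ([] ++ [y])) (FC.Star C) P' w →
      t' ∈ Facts (A ([] ++ [y])) (FC.Star C) P' w → t = t' := by
    rintro w ⟨s, c, v⟩ ⟨s', c', v'⟩ ht ht'
    have h1 := (h.tiles ([] ++ [y]) [] (w ++ y :: u)).2 (hnot w)
    have h2 := h1.unique (hlift w s c v ht) (hlift w s' c' v' ht')
    simp only [Prod.mk.injEq, List.append_cancel_right_eq] at h2 ⊢
    exact h2
  have hfinP : P'.Finite := by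
    refine Set.Finite.preimage ?_ (h.finB [])
    intro x _ z _ hxz
    simpa using hxz
  refine ⟨A ([] ++ [y]), P', h.finA _, hfinP, fun w => ⟨fun h => h.elim, fun _ => ?_⟩⟩
  obtain ⟨t, ht⟩ := hex w
  exact ⟨t, ht, fun t' ht' => hun w t' t ht' ht⟩

/-- The left side. -/
theorem core_left (h : Ctx C A B N) {y : α} {d : ℕ} (hd : ∀ w ∈ C, w.count y ≤ d)
    (hd1 : 1 ≤ d)
    (hcard : ∀ g g', (lev A y (d - 1) (g ++ [y])).ncard = (lev A y (d - 1) (g' ++ [y])).ncard)
    (hex : ∀ g, ∃ v ∈ A (g ++ [y]), v.count y = d - 1) :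
    ∃ S P : Set (List α), S.Finite ∧ P.Finite ∧ Tiles C S P ∅ :=
  endA_tiles h (sets_eq h hd hd1 hcard hex)

/-- The right side. -/
theorem core_right (h : Ctx C A B N) {y : α} {d : ℕ} (hd : ∀ w ∈ C, w.count y ≤ d)
    (hd1 : 1 ≤ d)
    (hcard : ∀ f f', (lev B y (d - 1) (y :: f)).ncard = (lev B y (d - 1) (y :: f')).ncard)
    (hex : ∀ f, ∃ v ∈ B (y :: f), v.count y = d - 1) :
    ∃ S P : Set (List α), S.Finite ∧ P.Finite ∧ Tiles C S P ∅ := by
  have hlev : ∀ g, lev (revF B) y (d - 1) (g ++ [y]) =
      List.reverse '' (lev B y (d - 1) (y :: g.reverse)) := by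
    intro g
    ext v
    rw [mem_rev]
    unfold lev
    simp only [Set.mem_ofPred_eq]
    rw [mem_revF, List.count_reverse, List.reverse_append, List.reverse_singleton,
      List.singleton_append]
  have hcd : ∀ g, (lev (revF B) y (d - 1) (g ++ [y])).ncard =
      (lev B y (d - 1) (y :: g.reverse)).ncard := by
    intro g
    rw [hlev]
    exact Set.ncard_image_of_injective _ List.reverse_injective
  obtain ⟨S, P, hS, hP, hT⟩ := core_left h.rev (y := y) (d := d) (by
      intro w hw
      have := hd _ ((mem_rev C w).1 hw)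
      rwa [List.count_reverse] at this) hd1 (by
      intro g g'
      rw [hcd, hcd]
      exact hcard _ _) (by
      intro g
      obtain ⟨v, hv, hv'⟩ := hex g.reverse
      refine ⟨v.reverse, ?_, by rw [List.count_reverse]; exact hv'⟩
      rw [mem_revF, List.reverse_reverse, List.reverse_append, List.reverse_singleton,
        List.singleton_append]
      exact hv)
  exact ⟨_, _, hP.image _, hS.image _, tiles_rev0 hT⟩

end Pool.Agent.H35.CX
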