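import Pool.Agent.H35.FS.Stm

/-!
# Abstract contexts, symmetric under reversal

`A g` are the words which complete a codeword that has begun inside a left context `g`, `B f` the
words from which a codeword goes on into the right context `f`, and `N g f` the words covered by
one codeword which meets both contexts.
-/

set_option autoImplicit false

namespace Pool.Agent.H35.CX

open Pool.Agent.H35.FC (IsCode Facts Tiles)
open Pool.Agent.H35.FS (deg Wt)

/-- The left context `g` is complete. -/
def RC {α : Type} (A : List α → Set (List α)) (g : List α) : Prop := [] ∈ A g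

/-- The right context `f` is complete. -/
def LC {α : Type} (B : List α → Set (List α)) (f : List α) : Prop := [] ∈ B f

/-- Abstract contexts. -/
structure Ctx {α : Type} (C : Set (List α)) (A B : List α → Set (List α))
    (N : List α → List α → Set (List α)) : Prop where
  fin : C.Finite
  code : IsCode C
  cne : C.Nonempty
  finA : ∀ g, (A g).Finite
  finB : ∀ f, (B f).Finite
  finN : ∀ g f, (N g f).Finite
  neA : ∀ g, (A g).Nonempty
  neB : ∀ f, (B f).Nonempty
  tiles : ∀ g f, Tiles C (A g) (B f) (N g f)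
  rcA : ∀ g z, RC A (g ++ z) ↔ ∃ s ∈ A g, ∃ c ∈ FC.Star C, s ++ c = z
  lcB : ∀ f z, LC B (z ++ f) ↔ ∃ c ∈ FC.Star C, ∃ b ∈ B f, c ++ b = z
  snA : ∀ g x v, v ∈ A (g ++ [x]) ↔ x :: v ∈ A g ∨ (RC A g ∧ x :: v ∈ C)
  snB : ∀ f x v, v ∈ B (x :: f) ↔ v ++ [x] ∈ B f ∨ (LC B f ∧ v ++ [x] ∈ C)
  srA : ∀ g v, v ∈ A g → ∃ p : List α, p ≠ [] ∧ p ++ v ∈ C ∧ (p ∈ FC.Star C → RC A g)
  srB : ∀ f v, v ∈ B f → ∃ s : List α, s ≠ [] ∧ v ++ s ∈ C ∧ (s ∈ FC.Star C → LC B f)

/-- The left contexts whose completions have weight at most `k`. -/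
def Gmin {α : Type} (A : List α → Set (List α)) (ω : α → ℕ) (k : ℕ) : Set (List α) :=
  {g | ∀ v ∈ A g, deg ω v ≤ k}

/-- The right contexts with the same property. -/
def Fmin {α : Type} (B : List α → Set (List α)) (ω : α → ℕ) (k : ℕ) : Set (List α) :=
  {f | ∀ v ∈ B f, deg ω v ≤ k}

/-- What is left after the degree arguments: `d = 3 m + 2 ω y`, `σ = τ = 2 m + ω y`. -/
structure Hyp {α : Type} (A B : List α → Set (List α)) (N : List α → List α → Set (List α))
    (ω : α → ℕ) (m : ℕ) (y : α) (k : ℕ) : Prop where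
  ne : ∀ g f, (N g f).Nonempty
  gne : (Gmin A ω k).Nonempty
  fne : (Fmin B ω k).Nonempty
  rc : ∀ g ∈ Gmin A ω k, RC A g
  lc : ∀ f ∈ Fmin B ω k, LC B f
  f1 : ∀ g, ¬ RC A g → g ++ [y] ∈ Gmin A ω k
  f1' : ∀ f, ¬ LC B f → y :: f ∈ Fmin B ω k
  n1 : ∀ g ∈ Gmin A ω k, ∀ f ∈ Fmin B ω k, ∀ u ∈ N g f, deg ω u = m

/-- The words of `B` for right contexts `f r ...` which may be continued. -/
def Bo {α : Type} (C : Set (List α)) (r f : List α) : Set (List α) :=
  {v | ∃ z, v ∈ FS.Bset C (r ++ z) f}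

/-- The words covered by one codeword, if the right context may be continued. -/
def No {α : Type} (C : Set (List α)) (l r g f : List α) : Set (List α) :=
  {u | ∃ z, u ∈ FS.Nset C l (r ++ z) g f}

/-- Closed on the left, open on the right: for each word exactly one completion of the left
context accepts the right context. -/
structure Open {α : Type} (C : Set (List α)) (l r : List α) : Prop where
  fin : C.Finite
  code : IsCode C
  lmem : l ∈ FC.Star C
  lne : l ≠ []
  ex : ∀ w : List α, ∃ z : List α, l ++ (w ++ (r ++ z)) ∈ FC.Star C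
  uq : ∀ w v v' z z' : List α, v ∈ FS.Aset C l w → v' ∈ FS.Aset C l w →
    (∃ c ∈ FC.Star C, r ++ z = v ++ c) → (∃ c ∈ FC.Star C, r ++ z' = v' ++ c) → v = v'

end Pool.Agent.H35.CX
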